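import Pool.Agent.Q97.KD.Crit

set_option autoImplicit false

/-!
# MP_5168f5: Kakeya maximal estimates for functions with additively structured superlevel sets

The basic inequality is: for every set `A` in `ℝ^n`, measurable or not,

`∫ (sup of |A ∩ ℓ| over the lines ℓ of direction e)^n dσ(e) ≤ n |A - A|`,

with equality for balls (in fact for all convex bodies). If `t < s` are in the part of `A` on a line of
direction `e`, then `(s - t) e` is in `A - A`; so the ray of direction `e` meets `A - A` in length at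
least `|A ∩ ℓ|`, and the inequality follows by integration in polar coordinates.

It is used here for functions `f` whose superlevel sets `E` are covered by sequences of sets `A j` with
`(∑ |A j - A j|^(1/n))^n ≤ K |E|`. This is the case, for instance, if `|E - E| ≤ K |E|` for all
superlevel sets `E` (small doubling), or if each `E` is covered by `N` sets of doubling at most `K₀`,
of total volume at most `|E|`, with `K = N^(n-1) K₀`. The sets `A j` may depend on `E` and
nothing else is assumed about them: convex sets, neighbourhoods of arithmetic progressions and of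
subgroups, Bohr sets, approximate groups.
-/

open MeasureTheory Set Filter Topology ENNReal NNReal Metric
open scoped Pointwise

namespace Pool.Agent.Results.MP_5168f5_an.AdditiveStructure

/-- The total size `∑ |A j - A j|^(1/n)` of the difference sets of a sequence of sets (Lebesgue outer
measure). -/
noncomputable def diffSum {n : ℕ} (A : ℕ → Set (EuclideanSpace ℝ (Fin n))) : ℝ≥0∞ :=
  ∑' j, volume (A j - A j) ^ (1 / (n : ℝ))

/-- Every superlevel set `E = {|f| > s}`, `s > 0`, is covered by a sequence `A j` of sets with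
`(∑ |A j - A j|^(1/n))^n ≤ K |E|`. -/
def Structured {n : ℕ} (K : ℝ≥0∞) (f : EuclideanSpace ℝ (Fin n) → ℝ) : Prop :=
  ∀ s : ℝ, 0 < s → ∃ A : ℕ → Set (EuclideanSpace ℝ (Fin n)), {y | s < |f y|} ⊆ ⋃ j, A j ∧
    diffSum A ^ n ≤ K * volume {y | s < |f y|}

/-- The same, up to null sets. -/
def StructuredAE {n : ℕ} (K : ℝ≥0∞) (f : EuclideanSpace ℝ (Fin n) → ℝ) : Prop :=
  ∀ s : ℝ, 0 < s → ∃ A : ℕ → Set (EuclideanSpace ℝ (Fin n)),
    (∀ᵐ y, s < |f y| → ∃ j, y ∈ A j) ∧ diffSum A ^ n ≤ K * volume {y | s < |f y|}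

/-- The closed tube of length `1` and radius `δ` with centre `b` and axis direction `e`. -/
def tube {n : ℕ} (δ : ℝ) (e b : EuclideanSpace ℝ (Fin n)) : Set (EuclideanSpace ℝ (Fin n)) :=
  {y | |inner ℝ (y - b) e| ≤ 1 / 2 ∧ ‖(y - b) - (inner ℝ (y - b) e : ℝ) • e‖ ≤ δ}

/-- The Kakeya maximal function. -/
noncomputable def kakeyaMax {n : ℕ} (δ : ℝ) (f : EuclideanSpace ℝ (Fin n) → ℝ)
    (e : EuclideanSpace ℝ (Fin n)) : ℝ≥0∞ :=
  ⨆ a : EuclideanSpace ℝ (Fin n), (volume (tube δ e a))⁻¹ * ∫⁻ y in tube δ e a, ‖f y‖ₑ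

/-- The maximal function of width zero: the supremum of the integrals of `|f|` over the unit
segments `{z + s e : 0 ≤ s ≤ 1}`. -/
noncomputable def segmentMax {n : ℕ} (f : EuclideanSpace ℝ (Fin n) → ℝ)
    (e : EuclideanSpace ℝ (Fin n)) : ℝ≥0∞ :=
  ⨆ z : EuclideanSpace ℝ (Fin n), ∫⁻ s in Icc (0:ℝ) 1, ‖f (z + s • e)‖ₑ

/-- The supremum of the integrals of `|f|` over the (complete) lines of direction `e`. -/
noncomputable def lineMax {n : ℕ} (f : EuclideanSpace ℝ (Fin n) → ℝ)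
    (e : EuclideanSpace ℝ (Fin n)) : ℝ≥0∞ :=
  ⨆ z : EuclideanSpace ℝ (Fin n), ∫⁻ s : ℝ, ‖f (z + s • e)‖ₑ

/-- The surface measure of the unit sphere. -/
noncomputable def surf (n : ℕ) : Measure (sphere (0 : EuclideanSpace ℝ (Fin n)) 1) :=
  (volume : Measure (EuclideanSpace ℝ (Fin n))).toSphere

/-- **Kakeya maximal estimates for additively structured functions**, `n ≥ 2`:

1. (complete lines, the endpoint) if `f` is measurable and structured with constant `K`, then
  `∫ (sup of ∫_ℓ |f| over the lines ℓ of direction e)^n dσ(e) ≤ n K (∫_0^∞ |{|f| > s}|^(1/n) ds)^n`;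
2. (exponents `p > n`, no loss in `δ`, segments and tubes) `∫ (f^*)^p ≤ C K ∫ |f|^p`, where `C`
  depends on `n` and `p` only;
3. (the exponent `n`) `∫ (f^*_δ)^n ≤ C K (1 + log (1/δ))^(n-1) ∫ |f|^n`, where `C` depends on `n`
  only. -/
theorem result (n : ℕ) (hn : 2 ≤ n) :
    (∀ (K : ℝ≥0∞) (f : EuclideanSpace ℝ (Fin n) → ℝ), Measurable f → Structured K f →
      ∫⁻ e, lineMax f (e : EuclideanSpace ℝ (Fin n)) ^ n ∂(surf n) ≤
        n * K * (∫⁻ s in Ioi (0:ℝ), volume {y | s < |f y|} ^ (1 / (n:ℝ))) ^ n) ∧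
    (∀ p : ℝ, (n:ℝ) < p → ∃ C : ℝ, 0 < C ∧
      (∀ (K : ℝ≥0∞) (f : EuclideanSpace ℝ (Fin n) → ℝ), Measurable f → Structured K f →
        ∫⁻ e, segmentMax f (e : EuclideanSpace ℝ (Fin n)) ^ p ∂(surf n) ≤
          ENNReal.ofReal C * K * ∫⁻ y, ‖f y‖ₑ ^ p) ∧
      (∀ (K : ℝ≥0∞) (δ : ℝ) (f : EuclideanSpace ℝ (Fin n) → ℝ), 0 < δ → AEMeasurable f volume →
        StructuredAE K f →
        ∫⁻ e, kakeyaMax δ f (e : EuclideanSpace ℝ (Fin n)) ^ p ∂(surf n) ≤
          ENNReal.ofReal C * K * ∫⁻ y, ‖f y‖ₑ ^ p)) ∧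
    (∃ C : ℝ, 0 < C ∧ ∀ (K : ℝ≥0∞) (δ : ℝ) (f : EuclideanSpace ℝ (Fin n) → ℝ), 1 ≤ K → 0 < δ →
      δ < 1 → AEMeasurable f volume → StructuredAE K f →
      ∫⁻ e, kakeyaMax δ f (e : EuclideanSpace ℝ (Fin n)) ^ n ∂(surf n) ≤
        ENNReal.ofReal (C * (1 + Real.log (1 / δ)) ^ (n - 1)) * K * ∫⁻ y, ‖f y‖ₑ ^ n) := by
  have hn1 : 1 ≤ n := by omega
  refine ⟨?_, ?_, ?_⟩
  · intro K f hf hs
    exact Pool.Agent.Q97.KD.xray hn1 hf hs
  · intro p hp
    exact Pool.Agent.Q97.KD.strong' hn1 hp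
  · exact Pool.Agent.Q97.KD.crit n hn

end Pool.Agent.Results.MP_5168f5_an.AdditiveStructure
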