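import Pool.Agent.Q93.KF9

/-!
# MP_5168f5: the Kakeya maximal conjecture needs no supremum

For all `n ≥ 1`, `1 ≤ p < ∞`, `κ ≥ 0` and `R > 0` the maximal estimate
`‖f^*_δ‖_p ≤ C_ε δ^(-κ-ε) ‖f‖_p` (for `p = n` and `κ = 0` this is the Kakeya maximal function
conjecture in `ℝ^n`) is equivalent to the following statement about one function and one family of
segments at a time: whenever one unit segment is chosen (measurably) in every direction, with its
midpoint in the ball of radius `R`, and `f ∈ L^p`, then for almost every direction the average of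
`|f|` over the `δ`-tube about the chosen segment is `O(δ^(-κ-ε))`. The constants may depend on
everything. If the maximal estimate fails then the typical pair (family, function), in the sense of
Baire category, has unbounded normalised averages in almost every direction.

Proof of the main implication. If the estimate fails with the exponent `κ + ε`, it fails also in its
weak type form (a dyadic decomposition loses only a logarithm). A function violating the weak type
estimate is cut into pieces supported in small balls; one of the translated pieces, spread over the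
sphere of directions by finitely many rotations (a random rotation argument), gives a function of small
norm, supported near the origin, whose maximal function is large outside a small set of directions,
with the large averages over tubes with midpoints near the origin. Translates of it to the points of
a finite net show that near any given pair there is a pair with large averages in most directions;
the measurable selection of the midpoints is elementary. By Fatou's lemma the condition is open.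
-/

open MeasureTheory Set Metric Filter Topology
open scoped ENNReal NNReal

namespace Pool.Agent.Results.MP_5168f5_an.FixedSegments

noncomputable section

open Pool.Agent.Q93.KF

/-- The maximal estimate `‖f^*_δ‖_p ≤ C_ε δ^(-κ-ε) ‖f‖_p` on `ℝ^n`, for every `ε > 0`. For `p = n`
and `κ = 0` this is the Kakeya maximal function conjecture in `ℝ^n`. -/
def MaximalEstimate (n : ℕ) (p : ℝ≥0∞) (κ : ℝ) : Prop :=
  ∀ ε : ℝ, 0 < ε → ∃ C : ℝ, ∀ δ : ℝ, 0 < δ → δ < 1 → ∀ f : E n → ℝ, MemLp f p volume →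
    eLpNorm (fun e : S n => maxf f δ e) p (surf n) ≤
      ENNReal.ofReal (C * δ ^ (-(κ + ε))) * eLpNorm f p volume

/-- For one function at a time: for every `f ∈ L^p` and `ε > 0`, for almost every direction `e`,
`f^*_δ(e) = O(δ^(-κ-ε))` as `δ → 0`. -/
def OneFunction (n : ℕ) (p : ℝ≥0∞) (κ : ℝ) : Prop :=
  ∀ ε : ℝ, 0 < ε → ∀ f : E n → ℝ, MemLp f p volume →
    ∀ᵐ e ∂surf n, Big (κ + ε) (fun δ => maxf f δ (e : S n))

/-- For one function and one family of segments at a time: for every measurable family of unit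
segments, one in each direction `e`, with midpoints `a e` in the ball of radius `R`, for every
`f ∈ L^p` and `ε > 0`, for almost every direction `e` the average of `|f|` over the `δ`-tube about
the segment is `O(δ^(-κ-ε))` as `δ → 0`. -/
def OneFamily (n : ℕ) (p : ℝ≥0∞) (κ R : ℝ) : Prop :=
  ∀ ε : ℝ, 0 < ε → ∀ a : S n → E n, Measurable a → (∀ e, ‖a e‖ ≤ R) →
    ∀ f : E n → ℝ, MemLp f p volume → ∀ᵐ e ∂surf n, Big (κ + ε) (fun δ => tubeAv a f δ e)

/-- The pairs: a measurable family of unit segments, one in each direction `e`, with the midpoint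
`mid e` in the ball of radius `R`, and a function `fn` in `L^p(ℝ^n)`. -/
structure Pair (n : ℕ) (p : ℝ≥0∞) (R : ℝ) where
  /-- the midpoints -/
  mid : S n → E n
  /-- they depend measurably on the direction -/
  measurable_mid : Measurable mid
  /-- they are in the ball of radius `R` -/
  norm_mid_le : ∀ e, ‖mid e‖ ≤ R
  /-- the function -/
  fn : E n → ℝ
  /-- it is in `L^p` -/
  memLp_fn : MemLp fn p volume

/-- The average of the modulus of the function over the `δ`-tube about the segment in direction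
`e`. -/
def Pair.mean {n : ℕ} {p : ℝ≥0∞} {R : ℝ} (x : Pair n p R) (δ : ℝ) (e : S n) : ℝ≥0∞ :=
  tubeAv x.mid x.fn δ e

/-- The distance of two pairs: the larger one of the `L^1` distance of the midpoints and the `L^p`
distance of the functions. -/
def Pair.dist {n : ℕ} {p : ℝ≥0∞} {R : ℝ} (x y : Pair n p R) : ℝ≥0∞ :=
  max (eLpNorm (fun e => x.mid e - y.mid e) 1 (surf n)) (eLpNorm (fun z => x.fn z - y.fn z) p volume)

lemma Pair.dist_self {n : ℕ} {p : ℝ≥0∞} {R : ℝ} (x : Pair n p R) : x.dist x = 0 := by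
  simp [Pair.dist]

lemma Pair.dist_comm {n : ℕ} {p : ℝ≥0∞} {R : ℝ} (x y : Pair n p R) : x.dist y = y.dist x := by
  unfold Pair.dist
  rw [← eLpNorm_neg, ← eLpNorm_neg (f := fun z => x.fn z - y.fn z)]
  congr 2 <;> (congr 1; funext e; simp)

lemma memLp_mid {n : ℕ} {p : ℝ≥0∞} {R : ℝ} (x : Pair n p R) : MemLp x.mid 1 (surf n) :=
  MemLp.of_bound x.measurable_mid.aestronglyMeasurable R (Eventually.of_forall x.norm_mid_le)

lemma Pair.dist_triangle {n : ℕ} {p : ℝ≥0∞} [hp1 : Fact (1 ≤ p)] {R : ℝ} (x y z : Pair n p R) :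
    x.dist z ≤ x.dist y + y.dist z := by
  unfold Pair.dist
  have h1 : eLpNorm (fun e => x.mid e - z.mid e) 1 (surf n) ≤
      eLpNorm (fun e => x.mid e - y.mid e) 1 (surf n) +
      eLpNorm (fun e => y.mid e - z.mid e) 1 (surf n) := by
    refine le_trans (le_of_eq ?_) (eLpNorm_add_le
      ((memLp_mid x).sub (memLp_mid y)).1 ((memLp_mid y).sub (memLp_mid z)).1 le_rfl)
    congr 1
    funext e
    simp
  have h2 : eLpNorm (fun w => x.fn w - z.fn w) p volume ≤
      eLpNorm (fun w => x.fn w - y.fn w) p volume +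
      eLpNorm (fun w => y.fn w - z.fn w) p volume := by
    refine le_trans (le_of_eq ?_) (eLpNorm_add_le
      (x.memLp_fn.sub y.memLp_fn).1 (y.memLp_fn.sub z.memLp_fn).1 hp1.out)
    congr 1
    funext e
    simp
  refine max_le (h1.trans ?_) (h2.trans ?_)
  · exact add_le_add (le_max_left _ _) (le_max_left _ _)
  · exact add_le_add (le_max_right _ _) (le_max_right _ _)

/-- The pseudometric space of the pairs. -/
instance (n : ℕ) (p : ℝ≥0∞) [Fact (1 ≤ p)] (R : ℝ) : PseudoEMetricSpace (Pair n p R) where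
  edist := Pair.dist
  edist_self := Pair.dist_self
  edist_comm := Pair.dist_comm
  edist_triangle := Pair.dist_triangle

/-- For non-meagrely many pairs: for every `ε > 0` the set of the pairs `(a, f)` (a family of
segments, a function) such that the averages over the tubes of `a` are `O(δ^(-κ-ε))` for a
set of directions of positive measure is not meagre. -/
def NotMeagre (n : ℕ) (p : ℝ≥0∞) [Fact (1 ≤ p)] (κ R : ℝ) : Prop :=
  ∀ ε : ℝ, 0 < ε → ¬ IsMeagre {x : Pair n p R |
    ∃ᵐ e ∂surf n, Big (κ + ε) (fun δ => x.mean δ e)}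

/-- For the typical pair and almost every direction the averages exceed any multiple of
`δ^(-κ-ε)` for arbitrarily small `δ`. -/
def TypicalBlowup (n : ℕ) (p : ℝ≥0∞) [Fact (1 ≤ p)] (κ R ε : ℝ) : Prop :=
  ∀ᶠ x : Pair n p R in residual (Pair n p R), ∀ᵐ e ∂surf n, ∀ M : ℕ, ∃ᶠ δ in 𝓝[>] 0,
    ENNReal.ofReal (M * δ ^ (-(κ + ε))) < x.mean δ e

lemma strong_of_max {n : ℕ} {p : ℝ≥0∞} [hp1 : Fact (1 ≤ p)] (hp : p ≠ ⊤) {κ : ℝ}
    (h : MaximalEstimate n p κ) {ε : ℝ} (hε : 0 < ε) : Strong n p.toReal (κ + ε) := by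
  have hp0 : p ≠ 0 := (zero_lt_one.trans_le hp1.out).ne'
  have hpr : 0 < p.toReal := ENNReal.toReal_pos hp0 hp
  obtain ⟨C, hC⟩ := h ε hε
  refine ⟨max C 1, by positivity, fun δ hδ hδ1 f hf => ?_⟩
  have hδp : 0 < δ ^ (-(κ + ε)) := Real.rpow_pos_of_pos hδ _
  rcases eq_or_ne (∫⁻ y, ‖f y‖ₑ ^ p.toReal) ⊤ with hT | hT
  · rw [hT, ENNReal.mul_top (ENNReal.ofReal_pos.2 (by positivity)).ne']
    exact le_top
  have hmem : MemLp f p volume :=
    ⟨hf.aestronglyMeasurable, by
      rw [eLpNorm_lt_top_iff_lintegral_rpow_enorm_lt_top hp0 hp]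
      exact hT.lt_top⟩
  have h1 := hC δ hδ hδ1 f hmem
  rw [eLpNorm_eq_lintegral_rpow_enorm_toReal hp0 hp,
    eLpNorm_eq_lintegral_rpow_enorm_toReal hp0 hp] at h1
  simp only [enorm_eq_self] at h1
  have h2 := ENNReal.rpow_le_rpow h1 hpr.le
  rw [ENNReal.mul_rpow_of_nonneg _ _ hpr.le, ← ENNReal.rpow_mul, ← ENNReal.rpow_mul,
    one_div_mul_cancel hpr.ne', ENNReal.rpow_one, ENNReal.rpow_one] at h2
  refine h2.trans ?_
  gcongr
  rw [← ENNReal.ofReal_rpow_of_nonneg (by positivity) hpr.le]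
  gcongr
  exact le_max_left _ _

lemma max_of_strong {n : ℕ} {p : ℝ≥0∞} [hp1 : Fact (1 ≤ p)] (hp : p ≠ ⊤) {κ : ℝ}
    (h : ∀ ε : ℝ, 0 < ε → Strong n p.toReal (κ + ε)) : MaximalEstimate n p κ := by
  have hp0 : p ≠ 0 := (zero_lt_one.trans_le hp1.out).ne'
  have hpr : 0 < p.toReal := ENNReal.toReal_pos hp0 hp
  intro ε hε
  obtain ⟨C, hC, hS⟩ := h ε hε
  refine ⟨C, fun δ hδ hδ1 f hf => ?_⟩
  have h1 := hS δ hδ hδ1 f hf.aestronglyMeasurable.aemeasurable
  have hpos : 0 ≤ C * δ ^ (-(κ + ε)) := by positivity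
  rw [eLpNorm_eq_lintegral_rpow_enorm_toReal hp0 hp,
    eLpNorm_eq_lintegral_rpow_enorm_toReal hp0 hp]
  simp only [enorm_eq_self]
  calc (∫⁻ e : S n, maxf f δ e ^ p.toReal ∂surf n) ^ (1 / p.toReal)
      ≤ (ENNReal.ofReal ((C * δ ^ (-(κ + ε))) ^ p.toReal) * ∫⁻ y, ‖f y‖ₑ ^ p.toReal) ^
        (1 / p.toReal) := by gcongr
    _ = ENNReal.ofReal (C * δ ^ (-(κ + ε))) * (∫⁻ y, ‖f y‖ₑ ^ p.toReal) ^ (1 / p.toReal) := by
      rw [ENNReal.mul_rpow_of_nonneg _ _ (by positivity),
        ← ENNReal.ofReal_rpow_of_nonneg hpos hpr.le, ← ENNReal.rpow_mul,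
        mul_one_div_cancel hpr.ne', ENNReal.rpow_one]

lemma big_mono {κ : ℝ} {F F' : ℝ → ℝ≥0∞} (h : ∀ δ, F δ ≤ F' δ) (hF : Big κ F') : Big κ F := by
  obtain ⟨C, hC⟩ := hF
  exact ⟨C, hC.mono fun δ hδ => (h δ).trans hδ⟩

lemma tubeAv_le {n : ℕ} (a : S n → E n) (f : E n → ℝ) (δ : ℝ) (e : S n) :
    tubeAv a f δ e ≤ maxf f δ e :=
  le_iSup (fun b => av (fun y => ‖f y‖ₑ) δ b (e : E n)) (a e)

lemma max_one {n : ℕ} {p : ℝ≥0∞} [hp1 : Fact (1 ≤ p)] (hp : p ≠ ⊤) {κ : ℝ} (hκ : 0 ≤ κ)
    (h : MaximalEstimate n p κ) : OneFunction n p κ := by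
  intro ε hε f hf
  have hp0 : p ≠ 0 := (zero_lt_one.trans_le hp1.out).ne'
  have h1 := strong_of_max hp h (half_pos hε)
  have h2 := strong_ptwise (n := n) (p := p.toReal) (by
    rw [← ENNReal.toReal_one]
    exact ENNReal.toReal_mono hp hp1.out) hκ (half_pos hε) h1
    hf.aestronglyMeasurable.aemeasurable
    ((eLpNorm_lt_top_iff_lintegral_rpow_enorm_lt_top hp0 hp).1 hf.2).ne
  rw [mul_div_cancel₀ _ (two_ne_zero)] at h2
  exact h2

lemma notBig {κ : ℝ} {F : ℝ → ℝ≥0∞} (h : ∀ M : ℕ, ∃ᶠ δ in 𝓝[>] (0 : ℝ),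
    ENNReal.ofReal (M * δ ^ (-κ)) < F δ) : ¬ Big κ F := by
  rintro ⟨C, hC⟩
  obtain ⟨M, hM⟩ := exists_nat_ge C
  obtain ⟨δ, h1, h2, h3⟩ := ((h M).and_eventually (hC.and self_mem_nhdsWithin)).exists
  have hδ : 0 < δ := h3
  have h4 : ENNReal.ofReal (C * δ ^ (-κ)) ≤ ENNReal.ofReal (M * δ ^ (-κ)) := by
    apply ENNReal.ofReal_le_ofReal
    have := Real.rpow_pos_of_pos hδ (-κ)
    gcongr
  exact absurd (h1.trans_le (h2.trans h4)) (lt_irrefl _)

/-- The class of a pair. -/
def cls {n : ℕ} {p : ℝ≥0∞} [Fact (1 ≤ p)] {R : ℝ} (x : Pair n p R) :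
    Fam n R × Lp ℝ p (volume : Measure (E n)) :=
  (⟨(memLp_mid x).toLp x.mid, by
    filter_upwards [(memLp_mid x).coeFn_toLp] with e he
    rw [he]
    exact x.norm_mid_le e⟩, x.memLp_fn.toLp x.fn)

lemma isometry_cls {n : ℕ} {p : ℝ≥0∞} [Fact (1 ≤ p)] {R : ℝ} :
    Isometry (cls : Pair n p R → Fam n R × Lp ℝ p (volume : Measure (E n))) := by
  intro x y
  rw [Prod.edist_eq]
  show _ = Pair.dist x y
  have h1 : edist (cls x).1 (cls y).1 = eLpNorm (fun e => x.mid e - y.mid e) 1 (surf n) :=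
    Lp.edist_toLp_toLp x.mid y.mid (memLp_mid x) (memLp_mid y)
  have h2 : edist (cls x).2 (cls y).2 = eLpNorm (fun z => x.fn z - y.fn z) p volume :=
    Lp.edist_toLp_toLp x.fn y.fn x.memLp_fn y.memLp_fn
  rw [h1, h2]
  rfl

lemma surj_cls {n : ℕ} {p : ℝ≥0∞} [Fact (1 ≤ p)] {R : ℝ} (hR : 0 < R) :
    Function.Surjective (cls : Pair n p R → Fam n R × Lp ℝ p (volume : Measure (E n))) := by
  rintro ⟨a, f⟩
  set b : S n → E n := fun e => if ‖a.1 e‖ ≤ R then a.1 e else 0 with hb
  have hbm : Measurable b := by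
    have hm := (Lp.stronglyMeasurable a.1).measurable
    exact Measurable.ite (measurableSet_le hm.norm measurable_const) hm measurable_const
  have hbR : ∀ e, ‖b e‖ ≤ R := by
    intro e
    simp only [hb]
    split_ifs with hc
    · exact hc
    · rw [norm_zero]; exact hR.le
  refine ⟨⟨b, hbm, hbR, f, Lp.memLp f⟩, ?_⟩
  refine Prod.ext (Subtype.ext (Lp.ext ?_)) (Lp.toLp_coeFn f (Lp.memLp f))
  have h1 := (MemLp.of_bound (μ := surf n) hbm.aestronglyMeasurable R
    (Eventually.of_forall hbR) : MemLp b 1 (surf n)).coeFn_toLp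
  refine h1.trans ?_
  filter_upwards [a.2] with e he
  simp only [hb]
  rw [if_pos he]

lemma isOpenMap_cls {n : ℕ} {p : ℝ≥0∞} [Fact (1 ≤ p)] {R : ℝ} (hR : 0 < R) :
    IsOpenMap (cls : Pair n p R → Fam n R × Lp ℝ p (volume : Measure (E n))) :=
  isometry_cls.isUniformInducing.isInducing.isOpenMap (by
    rw [(surj_cls hR).range_eq]
    exact isOpen_univ)

lemma mean_cls {n : ℕ} {p : ℝ≥0∞} [Fact (1 ≤ p)] {R : ℝ} (x : Pair n p R) :
    ∀ᵐ e ∂surf n, ∀ δ, tubeAv (cls x).1.1 (cls x).2 δ e = x.mean δ e := by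
  filter_upwards [(memLp_mid x).coeFn_toLp] with e he δ
  unfold Pair.mean tubeAv
  have h1 : ((cls x).1.1 : S n → E n) e = x.mid e := he
  rw [h1]
  refine av_congr ?_ _ _ _
  filter_upwards [x.memLp_fn.coeFn_toLp] with y hy
  have h2 : ((cls x).2 : E n → ℝ) y = x.fn y := hy
  rw [h2]

lemma one_notMeagre {n : ℕ} (hn : 1 ≤ n) {p : ℝ≥0∞} [hp1 : Fact (1 ≤ p)] {κ R : ℝ} (hR : 0 < R)
    (h : OneFamily n p κ R) : NotMeagre n p κ R := by
  intro ε hε
  have : NeZero (surf n) := ⟨by
    have : Nontrivial (E n) := by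
      have : Nonempty (Fin n) := ⟨⟨0, hn⟩⟩
      infer_instance
    exact (Measure.toSphere_ne_zero _)⟩
  have h1 : {x : Pair n p R | ∃ᵐ e ∂surf n, Big (κ + ε) (fun δ => x.mean δ e)} = univ := by
    refine eq_univ_of_forall fun x => ?_
    exact (h ε hε x.mid x.measurable_mid x.norm_mid_le x.fn x.memLp_fn).frequently
  rw [h1]
  have : Nonempty (Pair n p R) := ⟨⟨0, measurable_const, fun e => by
    rw [Pi.zero_apply, norm_zero]; exact hR.le, 0, MemLp.zero⟩⟩
  have : CompleteSpace (Pair n p R) :=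
    (isometry_cls.isUniformInducing.completeSpace_congr (surj_cls hR)).2 inferInstance
  exact not_isMeagre_of_isOpen isOpen_univ univ_nonempty

lemma not_max {n : ℕ} (hn : 1 ≤ n) {p : ℝ≥0∞} [hp1 : Fact (1 ≤ p)] (hp : p ≠ ⊤) {κ : ℝ}
    (hκ : 0 ≤ κ) {R : ℝ} (hR : 0 < R) {ε : ℝ} (hε : 0 < ε)
    (h : ¬ Strong n p.toReal (κ + 2 * ε)) : TypicalBlowup n p κ R ε := by
  rcases dichotomy (n := n) (p := p) (R := R) hn hp hR (Φ := fun δ => δ ^ (-(κ + ε)))
    (fun δ hδ => Real.rpow_pos_of_pos hδ _) with h1 | h1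
  · exfalso
    apply h
    have h2 := weak_strong hn (p := p.toReal) (κ := κ + ε) (ε := ε) (by
      rw [← ENNReal.toReal_one]
      exact ENNReal.toReal_mono hp hp1.out) (by positivity) hε h1
    have h3 : κ + 2 * ε = κ + ε + ε := by ring
    rw [h3]
    exact h2
  · unfold TypicalBlowup
    have hm : IsMeagre {x : Fam n R × Lp ℝ p (volume : Measure (E n)) | ¬ ∀ᵐ e ∂surf n,
        ∀ M : ℕ, ∃ᶠ δ in 𝓝[>] 0, ENNReal.ofReal (M * δ ^ (-(κ + ε))) < tubeAv x.1.1 x.2 δ e} := by
      unfold IsMeagre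
      filter_upwards [h1] with x hx
      simpa using hx
    have h2 := hm.preimage_of_isOpenMap isometry_cls.continuous (isOpenMap_cls hR)
    unfold IsMeagre at h2
    filter_upwards [h2] with x hx
    have hx' : ∀ᵐ e ∂surf n, ∀ M : ℕ, ∃ᶠ δ in 𝓝[>] 0,
        ENNReal.ofReal (M * δ ^ (-(κ + ε))) < tubeAv (cls x).1.1 (cls x).2 δ e := by
      by_contra hcon
      exact hx hcon
    filter_upwards [hx', mean_cls x] with e he he' M
    refine (he M).mono fun δ hδ => ?_
    rw [← he' δ]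
    exact hδ

/-- **The Kakeya maximal conjecture, tested on one function and one family of segments.** -/
theorem result (n : ℕ) (hn : 1 ≤ n) (p : ℝ≥0∞) [Fact (1 ≤ p)] (hp : p ≠ ⊤) (κ : ℝ) (hκ : 0 ≤ κ)
    (R : ℝ) (hR : 0 < R) :
    List.TFAE [MaximalEstimate n p κ, OneFunction n p κ, OneFamily n p κ R, NotMeagre n p κ R] ∧
    (MaximalEstimate n p κ ∨ ∃ ε : ℝ, 0 < ε ∧ TypicalBlowup n p κ R ε) := by
  constructor
  · tfae_have 1 → 2 := max_one hp hκ
    tfae_have 2 → 3 := by
      intro h ε hε a _ _ f hf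
      filter_upwards [h ε hε f hf] with e he
      exact big_mono (fun δ => tubeAv_le a f δ e) he
    tfae_have 3 → 4 := one_notMeagre hn hR
    tfae_have 4 → 1 := by
      intro h
      refine max_of_strong hp fun ε hε => ?_
      by_contra hcon
      have hcon' : ¬ Strong n p.toReal (κ + 2 * (ε / 2)) := by
        rwa [mul_div_cancel₀ _ (two_ne_zero)]
      have h1 := not_max hn hp hκ hR (half_pos hε) hcon'
      refine h (ε / 2) (half_pos hε) ?_
      unfold IsMeagre
      unfold TypicalBlowup at h1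
      filter_upwards [h1] with x hx
      show ¬ ∃ᵐ e ∂surf n, Big (κ + ε / 2) (fun δ => x.mean δ e)
      rw [Filter.not_frequently]
      filter_upwards [hx] with e he
      exact notBig he
    tfae_finish
  · by_cases h : ∀ ε : ℝ, 0 < ε → Strong n p.toReal (κ + ε)
    · exact Or.inl (max_of_strong hp h)
    · right
      push Not at h
      obtain ⟨ε, hε, h1⟩ := h
      refine ⟨ε / 2, half_pos hε, not_max hn hp hκ hR (half_pos hε) ?_⟩
      rwa [mul_div_cancel₀ _ (two_ne_zero)]

end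

end Pool.Agent.Results.MP_5168f5_an.FixedSegments
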