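import Pool.Agent.Q97.KF.Maj

set_option autoImplicit false

/-!
# MP_5168f5: the Kakeya maximal function and Fourier majorants

Let `μ = u dν` be a complex measure on `ℝ^n`, where `ν` is a finite positive measure and `|u| ≤ 1`, and
let `F` and `G` be the Fourier transforms of `u dν` and of its majorant `dν`. If `|f| ≤ Re F` then the
Kakeya maximal function of `f` is at most a constant times the average of `|G|` over the *centred* tube:
the supremum over the positions of the tubes disappears. It follows that all the estimates of the Kakeya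
maximal conjecture hold with the norm of the Fourier majorant `G` on the right side:

`‖f^*_δ‖_n ≤ C (1 + log (1/δ))^((n-1)/n) ‖G‖_n`,

and similarly for `p < n` (with the power `δ^(-(n/p - 1))` of the conjecture) and for `p > n` (without
loss). For a positive definite function `f ≥ 0` one has `F = G = f`, so that these functions satisfy
the conjecture. For `n = 2` and `f ≥ 0` (say in the Schwartz class, `F = f`) one has `‖G‖_2 = ‖f‖_2`,
and the estimate is the theorem of Córdoba in the plane.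

Proof. `∫ over T(a) of |f|` is at most a constant times the integral of `F` against the autocorrelation,
shifted by `a`, of the indicator of a larger centred tube; the autocorrelation has a nonnegative Fourier
transform.
-/

open MeasureTheory Set Filter Topology ENNReal NNReal Metric

namespace Pool.Agent.Results.MP_5168f5_an.FourierMajorants

/-- The Fourier transform of the measure `u dν`. -/
noncomputable def ft {n : ℕ} (ν : Measure (EuclideanSpace ℝ (Fin n)))
    (u : EuclideanSpace ℝ (Fin n) → ℂ) (x : EuclideanSpace ℝ (Fin n)) : ℂ :=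
  ∫ ξ, Complex.exp (-(2 * Real.pi * inner ℝ ξ x : ℝ) * Complex.I) * u ξ ∂ν

/-- The closed tube of length `1` and radius `δ` with centre `b` and axis direction `e`. -/
def tube {n : ℕ} (δ : ℝ) (e b : EuclideanSpace ℝ (Fin n)) : Set (EuclideanSpace ℝ (Fin n)) :=
  {y | |inner ℝ (y - b) e| ≤ 1 / 2 ∧ ‖(y - b) - (inner ℝ (y - b) e : ℝ) • e‖ ≤ δ}

/-- The Kakeya maximal function. -/
noncomputable def kakeyaMax {n : ℕ} (δ : ℝ) (f : EuclideanSpace ℝ (Fin n) → ℝ)
    (e : EuclideanSpace ℝ (Fin n)) : ℝ≥0∞ :=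
  ⨆ a : EuclideanSpace ℝ (Fin n), (volume (tube δ e a))⁻¹ * ∫⁻ y in tube δ e a, ‖f y‖ₑ

/-- The tube of length `4` and radius `4 δ` with centre `0`. -/
def centredTube {n : ℕ} (δ : ℝ) (e : EuclideanSpace ℝ (Fin n)) : Set (EuclideanSpace ℝ (Fin n)) :=
  {y | |inner ℝ y e| ≤ 2 ∧ ‖y - (inner ℝ y e : ℝ) • e‖ ≤ 4 * δ}

/-- The surface measure of the unit sphere. -/
noncomputable def surf (n : ℕ) : Measure (sphere (0 : EuclideanSpace ℝ (Fin n)) 1) :=
  (volume : Measure (EuclideanSpace ℝ (Fin n))).toSphere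

/-- The loss in the `p`-th power of the norm at the scale `δ`: `1` for `p > n`,
`(1 + log (1/δ))^(n-1)` for `p = n` and `δ^(-(n-p))` for `p < n`. -/
noncomputable def loss (n : ℕ) (p δ : ℝ) : ℝ :=
  if (n:ℝ) < p then 1 else if p = n then (1 + Real.log (1 / δ)) ^ (n - 1) else δ ^ (-((n:ℝ) - p))

/-- **Kakeya maximal estimates with the Fourier majorant**, `n ≥ 2`. Let `|f| ≤ Re (u dν)^` almost
everywhere, where `ν` is a finite measure and `|u| ≤ 1`, and let `G` be the Fourier transform of `ν`.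
1. For all `δ > 0` and all unit vectors `e`, `f^*_δ(e)` is at most `2^n` times the integral of `|G|`
  over the centred tube of direction `e`, of length `4` and radius `4 δ`, divided by the volume of the
  tube of length `1` and radius `δ`.
2. For all `p > 1` there is `C`, depending on `n` and `p` only, such that for all `0 < δ < 1` one has
  `∫ (f^*_δ)^p ≤ C loss ∫ |G|^p`. -/
theorem result (n : ℕ) (hn : 2 ≤ n) :
    (∀ (ν : Measure (EuclideanSpace ℝ (Fin n))) [IsFiniteMeasure ν]
      (u : EuclideanSpace ℝ (Fin n) → ℂ) (f : EuclideanSpace ℝ (Fin n) → ℝ) (δ : ℝ)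
      (e : EuclideanSpace ℝ (Fin n)), Measurable u → (∀ ξ, ‖u ξ‖ ≤ 1) →
      (∀ᵐ x, |f x| ≤ (ft ν u x).re) → 0 < δ → ‖e‖ = 1 →
      kakeyaMax δ f e ≤ 2 ^ n * ((volume (tube δ e 0))⁻¹ *
        ∫⁻ y in centredTube δ e, ‖ft ν (fun _ => 1) y‖ₑ)) ∧
    (∀ p : ℝ, 1 < p → ∃ C : ℝ, 0 < C ∧ ∀ (ν : Measure (EuclideanSpace ℝ (Fin n)))
      [IsFiniteMeasure ν] (u : EuclideanSpace ℝ (Fin n) → ℂ) (f : EuclideanSpace ℝ (Fin n) → ℝ)
      (δ : ℝ), Measurable u → (∀ ξ, ‖u ξ‖ ≤ 1) → (∀ᵐ x, |f x| ≤ (ft ν u x).re) → 0 < δ → δ < 1 →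
      ∫⁻ e, kakeyaMax δ f (e : EuclideanSpace ℝ (Fin n)) ^ p ∂(surf n) ≤
        ENNReal.ofReal (C * loss n p δ) * ∫⁻ x, ‖ft ν (fun _ => 1) x‖ₑ ^ p) := by
  obtain ⟨m, rfl⟩ : ∃ m, n = m + 1 := ⟨n - 1, by omega⟩
  refine ⟨?_, ?_⟩
  · intro ν _ u f δ e hu hu1 hf hδ he
    exact Pool.Agent.Q97.KF.domination hδ ν hu hu1 hf he
  · intro p hp
    obtain ⟨C, hC, h⟩ := Pool.Agent.Q97.KF.majorant (m := m) (by omega) hp
    exact ⟨C, hC, fun ν _ u f δ hu hu1 hf hδ hδ1 => h ν u f δ hu hu1 hf hδ hδ1⟩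

end Pool.Agent.Results.MP_5168f5_an.FourierMajorants
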