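import Pool.Agent.Q85.ZR.R

set_option autoImplicit false

/-!
# MP_5168f5: the maximal conjecture for functions of low multiscale rank

Let `d = n + 1 ≥ 2`, `b ≥ 2` and `δ = b^(-N)`. The functions are constant on the cubes (cells) of side
`δ` of the `b`-adic grid. A nonnegative function has multiscale rank at most `r` if on each unit cube
there are, for every level `j ≤ N`, nonnegative functions `ψ_j(1), …, ψ_j(r)` on a cube of side
`b^(-j)`, such that the function is a nonnegative combination of the `ψ_0(i)`, and such that the
restriction of every `ψ_j(i)` to each `b`-adic subcube of side `b^(-j-1)` is a nonnegative combination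
of the `ψ_{j+1}(i')`. Examples are the products `∏ g_j(j-th digits of x)` (rank one, arbitrary
factors), sums of `r` of them, nonnegative matrix products along the digits, and the indicator
functions of sets with at most `r` different zooms at every level.

(1) For such functions the inequality of the problem holds, in every dimension and with an
integration over all directions of the sphere: `∫ (f*_δ)^d dσ ≤ C_ε δ^(-ε) r^A ∫ f^d`, `A = A(n, ε)`.
So the loss is `δ^(-2ε)` for all functions of rank at most `δ^(-ε/A)`.

(2) The case of sets of cells with at most `r` zooms at every level.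

(3) The case of arbitrary multiplicative cascades, with a constant which does not depend on them.

The proof: let `X` be a random point of a tube with the density `f`. For fixed `m` the relative
position of the cube of level `t + m` of `X` in its cube of level `t` is a function of `X` whose
entropy is at least the sum of the increments of the entropy of `X` over the scales `t - u`, `u ∈ G`,
where `G` is the set of the gaps of the Bohr set `{k : ‖k α‖ ≤ b^(-m)}` of the slope `α` of the tube.
The geometry of numbers shows that `G` has the length `(d - 1) m`, and that it is controlled by `d - 1`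
linearly independent vectors `k` with a small value `‖k · α‖`; this gives a weight of the direction
which is integrable up to `δ^(-ε)`. The average over the offset of the levels gives `d` times the
entropy of `X`, and Gibbs' inequality along the tree of the levels compares it with `∫ f^d`.
-/

namespace Pool.Agent.Results.MP_5168f5_an.LowMultiscaleRank

open MeasureTheory Q85.ZE Q85.ZR
open scoped ENNReal

/-- **The Kakeya maximal inequality for functions of low multiscale rank**, for sets with few zooms
and for multiplicative cascades. -/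
theorem result (n b : ℕ) (hn : 1 ≤ n) (hb : 2 ≤ b) (ε : ℝ) (hε : 0 < ε) :
    ∃ (C : ℝ) (A : ℕ), 0 < C ∧ ∀ N : ℕ, 1 ≤ N → ∀ δ : ℝ, δ = ((b:ℝ) ^ N)⁻¹ →
    (∀ r : ℕ, 1 ≤ r → ∀ φ : (Fin (n + 1) → ℤ) → ℝ, LowRank b N r φ →
      maxInt (cellFun δ φ) δ ≤
        ENNReal.ofReal (C * δ ^ (-ε) * (r:ℝ) ^ A) * ∫⁻ x, cellFun δ φ x ^ (n + 1)) ∧
    (∀ r : ℕ, 1 ≤ r → ∀ 𝒜 : Set (Fin (n + 1) → ℤ), FewZooms b N r 𝒜 →
      maxInt ((cells δ 𝒜).indicator 1) δ ≤
        ENNReal.ofReal (C * δ ^ (-ε) * (r:ℝ) ^ A) * volume (cells δ 𝒜)) ∧
    (∀ g : ℕ → (Fin (n + 1) → ℤ) → ℝ, (∀ j ρ, 0 ≤ g j ρ) →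
      maxInt (cellFun δ (cascade b N g)) δ ≤
        ENNReal.ofReal (C * δ ^ (-ε)) * ∫⁻ x, cellFun δ (cascade b N g) x ^ (n + 1)) := by
  obtain ⟨C, A, hC, H⟩ := main n b hn hb hε
  refine ⟨C, A, hC, fun N hN δ hδ => ⟨fun r hr φ hφ => H N hN δ hδ r hr φ hφ.1 hφ.2,
    fun r hr 𝒜 hZ => ?_, fun g hg => ?_⟩⟩
  · have hb0 : (0:ℝ) < b := by
      have : 0 < b := by omega
      exact_mod_cast this
    have hδ0 : 0 < δ := by rw [hδ]; positivity
    have h1 := H N hN δ hδ r hr (𝒜.indicator fun _ => (1:ℝ))
      (fun v => Set.indicator_nonneg (fun _ _ => zero_le_one) v)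
      (fun B => rank_zooms hr 𝒜 hZ B)
    rw [cellFun_ind hδ0] at h1
    have h2 : ∫⁻ x, (cells δ 𝒜).indicator (1 : EuclideanSpace ℝ (Fin (n + 1)) → ℝ≥0∞) x ^ (n + 1)
        = volume (cells δ 𝒜) := by
      rw [← lintegral_indicator_one (cells_meas δ 𝒜)]
      refine lintegral_congr fun x => ?_
      by_cases h : x ∈ cells δ 𝒜
      · rw [Set.indicator_of_mem h, Pi.one_apply, one_pow]
      · rw [Set.indicator_of_notMem h, zero_pow (by omega)]
    rw [h2] at h1
    exact h1
  · have h1 := H N hN δ hδ 1 le_rfl (cascade b N g) (cascade_nonneg g hg)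
      (fun B => rank_cascade (by omega) g hg B)
    rw [Nat.cast_one, one_pow, mul_one] at h1
    exact h1

end Pool.Agent.Results.MP_5168f5_an.LowMultiscaleRank
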